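import Pool.Agent.H.MP_d8826e_co.LB.All

/-! MP_d8826e_co: `τ_t(H) ≤ 2 (n_H + m_H) / (K + 2)` for the `K`-uniform hypergraphs of the class
with `2 ≤ K ≤ 15`; the threshold is at least `17`. -/

set_option autoImplicit false

namespace Pool.Agent.Results.MP_d8826e_co.ThresholdAtLeast17

/-- `u` and `v` are neighbours: they are distinct and some edge contains both. -/
def Nbr {V : Type} (E : Finset (Finset V)) (u v : V) : Prop :=
  u ≠ v ∧ ∃ e ∈ E, u ∈ e ∧ v ∈ e

/-- The hypergraph with vertex set `V` and edge set `E` belongs to the class `𝓗_k`: it has an edge,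
it is `k`-uniform and has no isolated vertex and no isolated edge. -/
structure InH {V : Type} (k : ℕ) (E : Finset (Finset V)) : Prop where
  nonempty : E.Nonempty
  uniform : ∀ e ∈ E, e.card = k
  noIsolatedVertex : ∀ v : V, ∃ e ∈ E, v ∈ e
  noIsolatedEdge : ∀ e ∈ E, ∃ f ∈ E, f ≠ e ∧ ∃ v, v ∈ e ∧ v ∈ f

/-- `T` is a total transversal: it meets every edge, and every vertex of `T` has a neighbour
in `T`. -/
structure IsTotalTransversal {V : Type} (E : Finset (Finset V)) (T : Finset V) : Prop where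
  meets : ∀ e ∈ E, ∃ v ∈ T, v ∈ e
  total : ∀ v ∈ T, ∃ w ∈ T, Nbr E v w

/-- The minimum size of a total transversal. -/
noncomputable def tauT {V : Type} (E : Finset (Finset V)) : ℕ :=
  sInf {t | ∃ T : Finset V, IsTotalTransversal E T ∧ T.card = t}

/-- `b k` is the supremum of `τ_t(H) / (n_H + m_H)` over the class `𝓗_k`. -/
noncomputable def b (k : ℕ) : ℝ :=
  sSup {r : ℝ | ∃ (V : Type) (_ : Fintype V) (E : Finset (Finset V)), InH k E ∧
    r = (tauT E : ℝ) / ((Fintype.card V : ℝ) + (E.card : ℝ))}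

theorem inH_iff {V : Type} {k : ℕ} {E : Finset (Finset V)} :
    InH k E ↔ H.MP_d8826e_co.LB.InH k E :=
  ⟨fun h => ⟨h.1, h.2, h.3, h.4⟩, fun h => ⟨h.1, h.2, h.3, h.4⟩⟩

theorem isTotalTransversal_iff {V : Type} {E : Finset (Finset V)} {T : Finset V} :
    IsTotalTransversal E T ↔ H.MP_d8826e_co.LB.IsTotalTransversal E T :=
  ⟨fun h => ⟨h.1, h.2⟩, fun h => ⟨h.1, h.2⟩⟩

theorem tauT_eq {V : Type} (E : Finset (Finset V)) : tauT E = H.MP_d8826e_co.LB.tauT E := by
  unfold tauT H.MP_d8826e_co.LB.tauT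
  simp only [isTotalTransversal_iff]

theorem b_eq (k : ℕ) : b k = H.MP_d8826e_co.LB.b k := by
  unfold b H.MP_d8826e_co.LB.b
  simp only [inH_iff, tauT_eq]

/-- For `2 ≤ K ≤ 15` and every `H` in `𝓗_K`, `τ_t(H) ≤ 2 (n_H + m_H) / (K + 2)`. Every `k ≥ 3` with
`b_{k-1} > 2/(k+1)` is at least `17`. -/
theorem result :
    (∀ K : ℕ, 2 ≤ K → K ≤ 15 → ∀ (V : Type) [Fintype V] (E : Finset (Finset V)), InH K E →
      (K + 2) * tauT E ≤ 2 * (Fintype.card V + E.card)) ∧
    ∀ k : ℕ, 3 ≤ k → 2 / ((k : ℝ) + 1) < b (k - 1) → 17 ≤ k := by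
  have h1 : ∀ K : ℕ, 2 ≤ K → K ≤ 15 → ∀ (V : Type) [Fintype V] (E : Finset (Finset V)), InH K E →
      (K + 2) * tauT E ≤ 2 * (Fintype.card V + E.card) := by
    intro K h2 h15 V _ E hE
    rw [tauT_eq]
    exact H.MP_d8826e_co.LB.bound h2 h15 (inH_iff.1 hE)
  refine ⟨h1, fun k hk hb => ?_⟩
  by_contra hcon
  push Not at hcon
  have h2 : b (k - 1) ≤ 2 / (((k - 1 : ℕ) : ℝ) + 2) := by
    rw [b_eq]
    refine H.MP_d8826e_co.LB.b_le_of fun V hV E hE => ?_
    have := h1 (k - 1) (by omega) (by omega) V E (inH_iff.2 hE)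
    rwa [tauT_eq] at this
  have h3 : ((k - 1 : ℕ) : ℝ) = k - 1 := by
    rw [Nat.cast_sub (by omega)]
    norm_num
  rw [h3, show (k : ℝ) - 1 + 2 = k + 1 by ring] at h2
  linarith

end Pool.Agent.Results.MP_d8826e_co.ThresholdAtLeast17
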