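import Mathlib

/-! MP_d8826e_co: the threshold for the total transversal constant is at most 49. The hypergraph is
the three-fold blow-up of the hypergraph of supports of the binary simplex code of dimension 5. -/

set_option autoImplicit false

namespace Pool.Agent.Results.MP_d8826e_co.ThresholdAtMost49

open Finset

/-- `u` and `v` are neighbours: they are distinct and some edge contains both. -/
def Nbr {V : Type} (E : Finset (Finset V)) (u v : V) : Prop :=
  u ≠ v ∧ ∃ e ∈ E, u ∈ e ∧ v ∈ e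

/-- The hypergraph with vertex set `V` and edge set `E` belongs to the class `𝓗_k`: it has an edge,
it is `k`-uniform and has no isolated vertex and no isolated edge. -/
structure InH {V : Type} (k : ℕ) (E : Finset (Finset V)) : Prop where
  nonempty : E.Nonempty
  uniform : ∀ e ∈ E, e.card = k
  noIsolatedVertex : ∀ v : V, ∃ e ∈ E, v ∈ e
  noIsolatedEdge : ∀ e ∈ E, ∃ f ∈ E, f ≠ e ∧ ∃ v, v ∈ e ∧ v ∈ f

/-- `T` is a total transversal: it meets every edge, and every vertex of `T` has a neighbour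
in `T`. -/
structure IsTotalTransversal {V : Type} (E : Finset (Finset V)) (T : Finset V) : Prop where
  meets : ∀ e ∈ E, ∃ v ∈ T, v ∈ e
  total : ∀ v ∈ T, ∃ w ∈ T, Nbr E v w

/-- The minimum size of a total transversal. -/
noncomputable def tauT {V : Type} (E : Finset (Finset V)) : ℕ :=
  sInf {t | ∃ T : Finset V, IsTotalTransversal E T ∧ T.card = t}

/-- `b k` is the supremum of `τ_t(H) / (n_H + m_H)` over the class `𝓗_k`. -/
noncomputable def b (k : ℕ) : ℝ :=
  sSup {r : ℝ | ∃ (V : Type) (_ : Fintype V) (E : Finset (Finset V)), InH k E ∧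
    r = (tauT E : ℝ) / ((Fintype.card V : ℝ) + (E.card : ℝ))}

/-! ### General facts -/

theorem tauT_le {V : Type} {E : Finset (Finset V)} {T : Finset V} (h : IsTotalTransversal E T) :
    tauT E ≤ T.card := Nat.sInf_le ⟨T, h, rfl⟩

theorem univ_total {V : Type} [Fintype V] {k : ℕ} (hk : 2 ≤ k) {E : Finset (Finset V)}
    (h : InH k E) : IsTotalTransversal E (Finset.univ : Finset V) := by
  refine ⟨fun e he => ?_, fun v _ => ?_⟩
  · have : 0 < e.card := by rw [h.uniform e he]; omega
    obtain ⟨v, hv⟩ := card_pos.1 this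
    exact ⟨v, mem_univ v, hv⟩
  · obtain ⟨e, he, hv⟩ := h.noIsolatedVertex v
    have : 1 < e.card := by rw [h.uniform e he]; omega
    obtain ⟨w, hw, hne⟩ := exists_mem_ne this v
    exact ⟨w, mem_univ w, hne.symm, e, he, hv, hw⟩

theorem bddAbove_set {k : ℕ} (hk : 2 ≤ k) :
    BddAbove {r : ℝ | ∃ (V : Type) (_ : Fintype V) (E : Finset (Finset V)), InH k E ∧
      r = (tauT E : ℝ) / ((Fintype.card V : ℝ) + (E.card : ℝ))} := by
  refine ⟨1, ?_⟩
  rintro r ⟨V, _, E, hE, rfl⟩
  have h1 : tauT E ≤ Fintype.card V := tauT_le (univ_total hk hE)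
  have h2 : (tauT E : ℝ) ≤ Fintype.card V := by exact_mod_cast h1
  have h3 : 0 < (E.card : ℝ) := by exact_mod_cast card_pos.2 hE.nonempty
  have h4 : (0 : ℝ) ≤ Fintype.card V := Nat.cast_nonneg _
  rw [div_le_one (by linarith)]
  linarith

theorem le_b {k : ℕ} (hk : 2 ≤ k) {V : Type} [Fintype V] {E : Finset (Finset V)} (h : InH k E) :
    (tauT E : ℝ) / ((Fintype.card V : ℝ) + (E.card : ℝ)) ≤ b k :=
  le_csSup (bddAbove_set hk) ⟨V, inferInstance, E, h, rfl⟩

/-! ### The simplex code of dimension `r` -/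

variable {r x : ℕ}

/-- the vectors of length `r` over the field with two elements -/
abbrev Vec (r : ℕ) := Fin r → ZMod 2

/-- the bilinear form -/
def dot (v z : Vec r) : ZMod 2 := ∑ i, v i * z i

theorem dot_add (v w z : Vec r) : dot (v + w) z = dot v z + dot w z := by
  simp [dot, add_mul, sum_add_distrib]

theorem dot_sub (v z w : Vec r) : dot v (z - w) = dot v z - dot v w := by
  simp [dot, mul_sub, sum_sub_distrib]

theorem dot_single (i : Fin r) (z : Vec r) : dot (Pi.single i 1) z = z i := by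
  simp [dot, Pi.single_apply]

theorem zmod2 (a : ZMod 2) : a ≠ 0 ↔ a = 1 := by
  revert a; decide

theorem card_supp {z : Vec r} (hz : z ≠ 0) :
    2 * (univ.filter fun v : Vec r => dot v z ≠ 0).card = 2 ^ r := by
  obtain ⟨i, hi⟩ := Function.ne_iff.1 hz
  have hi1 : z i = 1 := (zmod2 _).1 hi
  have e1 : (univ.filter fun v : Vec r => dot v z ≠ 0).card
      = (univ.filter fun v : Vec r => ¬ dot v z ≠ 0).card := by
    refine card_bij (fun v _ => v + Pi.single i 1) ?_ ?_ ?_
    · intro v hv
      simp only [mem_filter, mem_univ, true_and, zmod2] at hv ⊢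
      rw [dot_add, dot_single, hi1, hv]
      decide
    · intro v _ w _ h
      exact add_right_cancel h
    · intro v hv
      refine ⟨v - Pi.single i 1, ?_, by simp⟩
      simp only [mem_filter, mem_univ, true_and, not_not] at hv ⊢
      have : dot (v - Pi.single i 1) z + dot (Pi.single i 1) z = dot v z := by
        rw [← dot_add]; simp
      rw [dot_single, hi1, hv] at this
      revert this
      generalize dot (v - Pi.single i 1) z = a
      revert a; decide
  have e2 := card_filter_add_card_filter_not (s := (univ : Finset (Vec r)))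
    (fun v : Vec r => dot v z ≠ 0)
  rw [← e1, card_univ, Fintype.card_fun, ZMod.card, Fintype.card_fin] at e2
  omega

/-- the vertices: nonzero vectors, each `x` times -/
abbrev Vert (r x : ℕ) := {v : Vec r // v ≠ 0} × Fin x

/-- the edge of the functional `z` -/
def edge (x : ℕ) (z : Vec r) : Finset (Vert r x) := univ.filter fun p => dot p.1.1 z ≠ 0

/-- the edge set -/
def edges (r x : ℕ) : Finset (Finset (Vert r x)) := (univ.filter fun z : Vec r => z ≠ 0).image (edge x)

theorem mem_edge {z : Vec r} {p : Vert r x} : p ∈ edge x z ↔ dot p.1.1 z ≠ 0 := by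
  simp [edge]

theorem dot_zero_left (z : Vec r) : dot 0 z = 0 := by simp [dot]

theorem card_edge {z : Vec r} (hz : z ≠ 0) : 2 * (edge x z).card = 2 ^ r * x := by
  have h : (edge x z).card = (univ.filter fun v : Vec r => dot v z ≠ 0).card * x := by
    have : (edge x z).card
        = ((univ.filter fun v : Vec r => dot v z ≠ 0) ×ˢ (univ : Finset (Fin x))).card := by
      refine card_bij (fun p _ => (p.1.1, p.2)) ?_ ?_ ?_
      · intro p hp
        rw [mem_edge] at hp
        simp [hp]
      · rintro ⟨⟨a, ha⟩, i⟩ _ ⟨⟨c, hc⟩, j⟩ _ h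
        simp only [Prod.mk.injEq] at h
        obtain ⟨rfl, rfl⟩ := h
        rfl
      · rintro ⟨v, i⟩ hv
        simp only [mem_product, mem_filter, mem_univ, true_and, and_true] at hv
        have hv0 : v ≠ 0 := by
          rintro rfl
          exact hv (dot_zero_left z)
        exact ⟨(⟨v, hv0⟩, i), mem_edge.2 hv, rfl⟩
    rw [this, card_product, card_univ, Fintype.card_fin]
  rw [h, ← mul_assoc, card_supp hz]

theorem card_vert : Fintype.card (Vert r x) = (2 ^ r - 1) * x := by
  rw [Fintype.card_prod, Fintype.card_fin]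
  congr 1
  rw [Fintype.card_subtype_compl, Fintype.card_fun, ZMod.card, Fintype.card_fin]
  simp

theorem edge_inj (hx : 0 < x) {z w : Vec r} (h : edge x z = edge x w) : z = w := by
  funext i
  have hs : (Pi.single i 1 : Vec r) ≠ 0 := by
    intro h0
    have := congrFun h0 i
    simp at this
  have := Finset.ext_iff.1 h (⟨Pi.single i 1, hs⟩, ⟨0, hx⟩)
  rw [mem_edge, mem_edge] at this
  simp only [dot_single] at this
  revert this
  generalize z i = a
  generalize w i = c
  revert a c
  decide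

theorem card_edges (hx : 0 < x) : (edges r x).card = 2 ^ r - 1 := by
  rw [edges, card_image_of_injOn (fun z _ w _ h => edge_inj hx h)]
  rw [filter_ne' univ (0 : Vec r), card_erase_of_mem (mem_univ _), card_univ, Fintype.card_fun,
    ZMod.card, Fintype.card_fin]

/-- a transversal has at least `r` vertices -/
theorem le_card_of_meets {T : Finset (Vert r x)} (h : ∀ e ∈ edges r x, ∃ v ∈ T, v ∈ e) :
    r ≤ T.card := by
  by_contra hlt
  push Not at hlt
  have hc : Fintype.card (T → ZMod 2) < Fintype.card (Vec r) := by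
    rw [Fintype.card_fun, Fintype.card_fun, ZMod.card, Fintype.card_fin, Fintype.card_coe]
    exact Nat.pow_lt_pow_right (by norm_num) hlt
  obtain ⟨z, w, hne, heq⟩ := Fintype.exists_ne_map_eq_of_card_lt
    (fun z : Vec r => fun p : T => dot p.1.1.1 z) hc
  have hzw : z - w ≠ 0 := sub_ne_zero.2 hne
  obtain ⟨p, hpT, hp⟩ := h (edge x (z - w)) (mem_image.2 ⟨z - w, by simp [hzw], rfl⟩)
  rw [mem_edge, dot_sub] at hp
  exact hp (sub_eq_zero.2 (congrFun heq ⟨p, hpT⟩))

theorem inH (hr : 2 ≤ r) (hx : 0 < x) : InH (2 ^ (r - 1) * x) (edges r x) := by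
  have h2 : 2 ^ r = 2 * 2 ^ (r - 1) := by
    rw [← pow_succ']; congr 1; omega
  have hcard : ∀ z : Vec r, z ≠ 0 → (edge x z).card = 2 ^ (r - 1) * x := by
    intro z hz
    have := card_edge (x := x) hz
    rw [h2, mul_assoc] at this
    omega
  have hmem : ∀ z : Vec r, z ≠ 0 → edge x z ∈ edges r x := fun z hz =>
    mem_image.2 ⟨z, by simp [hz], rfl⟩
  have hs : ∀ i : Fin r, (Pi.single i 1 : Vec r) ≠ 0 := by
    intro i h0
    have := congrFun h0 i
    simp at this
  refine ⟨⟨_, hmem _ (hs ⟨0, by omega⟩)⟩, ?_, ?_, ?_⟩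
  · intro e he
    obtain ⟨z, hz, rfl⟩ := mem_image.1 he
    exact hcard z (by simpa using hz)
  · intro p
    obtain ⟨i, hi⟩ := Function.ne_iff.1 p.1.2
    refine ⟨edge x (Pi.single i 1), hmem _ (hs i), ?_⟩
    rw [mem_edge]
    have : dot p.1.1 (Pi.single i 1) = p.1.1 i := by simp [dot, Pi.single_apply]
    rw [this]
    exact hi
  · intro e he
    obtain ⟨z, hz, rfl⟩ := mem_image.1 he
    have hz0 : z ≠ 0 := by simpa using hz
    obtain ⟨w, hw0, hwz⟩ : ∃ w : Vec r, w ≠ 0 ∧ w ≠ z := by
      by_contra hcon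
      push Not at hcon
      have h01 : (Pi.single (⟨0, by omega⟩ : Fin r) 1 : Vec r)
          = Pi.single (⟨1, by omega⟩ : Fin r) 1 := by
        rw [hcon _ (hs _), hcon _ (hs _)]
      have := congrFun h01 ⟨0, by omega⟩
      simp at this
    refine ⟨edge x w, hmem w hw0, fun h => hwz (edge_inj hx h), ?_⟩
    by_contra hcon
    push Not at hcon
    have hdis : Disjoint (edge x z) (edge x w) := by
      rw [Finset.disjoint_left]
      exact hcon
    have hle : (edge x z ∪ edge x w).card ≤ Fintype.card (Vert r x) := card_le_univ _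
    rw [card_union_of_disjoint hdis, hcard z hz0, hcard w hw0, card_vert, h2] at hle
    have hp : 0 < 2 ^ (r - 1) := by positivity
    obtain ⟨y, hy⟩ : ∃ y, 2 ^ (r - 1) = y + 1 := ⟨2 ^ (r - 1) - 1, by omega⟩
    rw [hy] at hle
    have : 2 * (y + 1) - 1 = 2 * y + 1 := by omega
    rw [this] at hle
    nlinarith

theorem le_tauT (hr : 2 ≤ r) (hx : 0 < x) : r ≤ tauT (edges r x) := by
  have hk : 2 ≤ 2 ^ (r - 1) * x := by
    have h1 : 2 ^ 1 ≤ 2 ^ (r - 1) := Nat.pow_le_pow_right (by norm_num) (by omega)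
    nlinarith
  have hne : {t | ∃ T : Finset (Vert r x), IsTotalTransversal (edges r x) T ∧ T.card = t}.Nonempty :=
    ⟨_, Finset.univ, univ_total hk (inH hr hx), rfl⟩
  obtain ⟨T, hT, hcard⟩ := Nat.sInf_mem hne
  have : tauT (edges r x) = T.card := hcard.symm
  rw [this]
  exact le_card_of_meets hT.meets

/-- the lower bound for `b` from the simplex codes -/
theorem b_ge (hr : 2 ≤ r) (hx : 0 < x) :
    (r : ℝ) / ((2 ^ r - 1) * (x + 1)) ≤ b (2 ^ (r - 1) * x) := by
  have hk : 2 ≤ 2 ^ (r - 1) * x := by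
    have h1 : 2 ^ 1 ≤ 2 ^ (r - 1) := Nat.pow_le_pow_right (by norm_num) (by omega)
    nlinarith
  refine le_trans ?_ (le_b hk (inH hr hx))
  rw [card_vert, card_edges hx]
  have h1 : ((2 ^ r - 1 : ℕ) : ℝ) = 2 ^ r - 1 := by
    rw [Nat.cast_sub Nat.one_le_two_pow]; simp
  have h2 : (1 : ℝ) < 2 ^ r := one_lt_pow₀ (by norm_num) (by omega)
  have h3 : (0 : ℝ) < x := by exact_mod_cast hx
  rw [Nat.cast_mul, h1]
  have h4 : ((2 : ℝ) ^ r - 1) * x + (2 ^ r - 1) = (2 ^ r - 1) * (x + 1) := by ring
  rw [h4]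
  have h5 : (r : ℝ) ≤ tauT (edges r x) := by exact_mod_cast le_tauT hr hx
  have h6 : (0 : ℝ) < (2 ^ r - 1) * (x + 1) := by
    apply mul_pos <;> linarith
  exact div_le_div_of_nonneg_right h5 h6.le

/-- The smallest integer `k ≥ 3` with `b_{k-1} > 2/(k+1)` exists and is at most `49`. -/
theorem result : ∃ k₀ : ℕ, IsLeast {k : ℕ | 3 ≤ k ∧ 2 / ((k : ℝ) + 1) < b (k - 1)} k₀ ∧ k₀ ≤ 49 := by
  have h49 : 49 ∈ {k : ℕ | 3 ≤ k ∧ 2 / ((k : ℝ) + 1) < b (k - 1)} := by
    refine ⟨by norm_num, ?_⟩
    have h := b_ge (r := 5) (x := 3) (by norm_num) (by norm_num)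
    norm_num at h ⊢
    linarith
  refine ⟨sInf {k : ℕ | 3 ≤ k ∧ 2 / ((k : ℝ) + 1) < b (k - 1)}, ⟨Nat.sInf_mem ⟨49, h49⟩, ?_⟩,
    Nat.sInf_le h49⟩
  intro k hk
  exact Nat.sInf_le hk

end Pool.Agent.Results.MP_d8826e_co.ThresholdAtMost49
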